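import Pool.Agent.H5.FR2.Stmts

set_option autoImplicit false

namespace Pool.Agent.H5.FR2

open Finset Pool.Agent.H5.FR Pool.Agent.H80

section

variable {X Y C O : Type} [Fintype X] [DecidableEq X] [Fintype Y] [DecidableEq Y]
  [Fintype C] [DecidableEq C] [Fintype O] [DecidableEq O]

theorem avg_curry {M : Type} [AddCommMonoid M] (f : (C × O → Fin 8) → M) :
    ∑ G : C → O → Fin 8, f (fun p => G p.1 p.2) = ∑ G : C × O → Fin 8, f G := by
  refine Fintype.sum_equiv (Equiv.curry C O (Fin 8)).symm _ _ fun G => ?_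
  rfl

theorem avg_card : (Fintype.card (C → O → Fin 8) : ℝ) = (8 : ℝ) ^ (Fintype.card (C × O)) := by
  rw [Fintype.card_fun, Fintype.card_fun, Fintype.card_fin, Fintype.card_prod, ← pow_mul,
    Nat.mul_comm]
  push_cast
  ring

theorem avg_two (h : WCKStmt) (a b : C × O) :
    ∑ G : C → O → Fin 8, zz (G a.1 a.2) * star (zz (G b.1 b.2)) =
      (8 : ℂ) ^ (Fintype.card (C × O)) * (if a = b then 1 else 0) := by
  rw [← (h (C × O)).1 a b]
  exact avg_curry (fun G => zz (G a) * star (zz (G b)))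

theorem avg_four (h : WCKStmt) (a b c e : C × O) :
    ∑ G : C → O → Fin 8, zz (G a.1 a.2) * star (zz (G b.1 b.2)) * zz (G c.1 c.2) *
      star (zz (G e.1 e.2)) = (8 : ℂ) ^ (Fintype.card (C × O)) *
      ((if a = b ∧ c = e then 1 else 0) + (if a = e ∧ c = b then 1 else 0)) := by
  rw [← (h (C × O)).2 a b c e]
  exact avg_curry (fun G => zz (G a) * star (zz (G b)) * zz (G c) * star (zz (G e)))

theorem avg_ite2 (p q : Prop) [Decidable p] [Decidable q] (t : ℂ) :
    (if p ∧ q then (1 : ℂ) else 0) * t = if p then (if q then t else 0) else 0 := by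
  by_cases hp : p
  · by_cases hq : q
    · rw [if_pos ⟨hp, hq⟩, if_pos hp, if_pos hq, one_mul]
    · rw [if_neg (fun h => hq h.2), if_pos hp, if_neg hq, zero_mul]
  · rw [if_neg (fun h => hp h.1), if_neg hp, zero_mul]

theorem avg_ite3 (p q r : Prop) [Decidable p] [Decidable q] [Decidable r] (t : ℂ) :
    (if p ∧ (q ∧ r) then (1 : ℂ) else 0) * t =
      if p then (if r then (if q then t else 0) else 0) else 0 := by
  by_cases hp : p
  · by_cases hq : q
    · by_cases hr : r
      · rw [if_pos ⟨hp, hq, hr⟩, if_pos hp, if_pos hr, if_pos hq, one_mul]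
      · rw [if_neg (fun h => hr h.2.2), if_pos hp, if_neg hr, zero_mul]
    · by_cases hr : r
      · rw [if_neg (fun h => hq h.2.1), if_pos hp, if_pos hr, if_neg hq, zero_mul]
      · rw [if_neg (fun h => hr h.2.2), if_pos hp, if_neg hr, zero_mul]
  · rw [if_neg (fun h => hp h.1), if_neg hp, zero_mul]

/-- the average of a quartic form -/
theorem avg_T (h : WCKStmt) (T : C → C → C → C → ℂ) :
    ∑ G : C → O → Fin 8, ∑ v, ∑ w, ∑ c₁, ∑ c₂, ∑ c₃, ∑ c₄,
      (zz (G c₁ v) * star (zz (G c₂ v)) * zz (G c₃ w) * star (zz (G c₄ w))) * T c₁ c₂ c₃ c₄ =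
    (8 : ℂ) ^ (Fintype.card (C × O)) * ((Fintype.card O : ℂ) ^ 2 * (∑ c, ∑ c', T c c c' c') +
      Fintype.card O * (∑ c, ∑ c', T c c' c' c)) := by
  rw [Finset.sum_comm]
  have h1 : ∀ v : O, ∑ G : C → O → Fin 8, ∑ w, ∑ c₁, ∑ c₂, ∑ c₃, ∑ c₄,
      (zz (G c₁ v) * star (zz (G c₂ v)) * zz (G c₃ w) * star (zz (G c₄ w))) * T c₁ c₂ c₃ c₄ =
      ∑ w, (8 : ℂ) ^ (Fintype.card (C × O)) * ((∑ c, ∑ c', T c c c' c') +
        (if v = w then ∑ c, ∑ c', T c c' c' c else 0)) := by
    intro v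
    rw [Finset.sum_comm]
    refine Finset.sum_congr rfl fun w _ => ?_
    have h2 : ∑ G : C → O → Fin 8, ∑ c₁, ∑ c₂, ∑ c₃, ∑ c₄,
        (zz (G c₁ v) * star (zz (G c₂ v)) * zz (G c₃ w) * star (zz (G c₄ w))) * T c₁ c₂ c₃ c₄ =
        ∑ c₁, ∑ c₂, ∑ c₃, ∑ c₄, (8 : ℂ) ^ (Fintype.card (C × O)) *
          ((if (c₁ = c₂ ∧ c₃ = c₄) then 1 else 0) +
            (if v = w ∧ (c₁ = c₄ ∧ c₃ = c₂) then 1 else 0)) * T c₁ c₂ c₃ c₄ := by
      rw [Finset.sum_comm]
      refine Finset.sum_congr rfl fun c₁ _ => ?_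
      rw [Finset.sum_comm]
      refine Finset.sum_congr rfl fun c₂ _ => ?_
      rw [Finset.sum_comm]
      refine Finset.sum_congr rfl fun c₃ _ => ?_
      rw [Finset.sum_comm]
      refine Finset.sum_congr rfl fun c₄ _ => ?_
      rw [← Finset.sum_mul, avg_four h (c₁, v) (c₂, v) (c₃, w) (c₄, w)]
      congr 2
      congr 1
      · refine if_congr ?_ rfl rfl
        simp only [Prod.mk.injEq]
        tauto
      · refine if_congr ?_ rfl rfl
        simp only [Prod.mk.injEq]
        constructor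
        · rintro ⟨⟨h1, h2⟩, h3, h4⟩
          exact ⟨h2, h1, h3⟩
        · rintro ⟨h1, h2, h3⟩
          exact ⟨⟨h2, h1⟩, h3, h1.symm⟩
    rw [h2]
    have h3 : ∀ c₁ c₂ c₃ c₄ : C, (8 : ℂ) ^ (Fintype.card (C × O)) *
          ((if (c₁ = c₂ ∧ c₃ = c₄) then 1 else 0) +
            (if v = w ∧ (c₁ = c₄ ∧ c₃ = c₂) then 1 else 0)) * T c₁ c₂ c₃ c₄ =
        (8 : ℂ) ^ (Fintype.card (C × O)) * ((if c₁ = c₂ then (if c₃ = c₄ then T c₁ c₂ c₃ c₄ else 0)
          else 0) + (if v = w then (if c₃ = c₂ then (if c₁ = c₄ then T c₁ c₂ c₃ c₄ else 0) else 0)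
          else 0)) := by
      intro c₁ c₂ c₃ c₄
      rw [mul_assoc, add_mul, avg_ite2, avg_ite3]
    simp only [h3, ← Finset.mul_sum]
    congr 1
    simp only [Finset.sum_add_distrib]
    congr 1
    · refine Finset.sum_congr rfl fun c₁ _ => ?_
      have : ∀ c₂, ∑ c₃, ∑ c₄, (if c₁ = c₂ then (if c₃ = c₄ then T c₁ c₂ c₃ c₄ else 0) else 0) =
          if c₁ = c₂ then ∑ c₃, T c₁ c₂ c₃ c₃ else 0 := by
        intro c₂
        by_cases e : c₁ = c₂
        · simp only [e, if_true]
          refine Finset.sum_congr rfl fun c₃ _ => ?_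
          rw [Finset.sum_ite_eq]
          simp
        · simp [e]
      simp only [this]
      rw [Finset.sum_ite_eq]
      simp
    · by_cases e : v = w
      · simp only [e, if_true]
        refine Finset.sum_congr rfl fun c₁ _ => ?_
        refine Finset.sum_congr rfl fun c₂ _ => ?_
        have : ∀ c₃, ∑ c₄, (if c₃ = c₂ then (if c₁ = c₄ then T c₁ c₂ c₃ c₄ else 0) else 0) =
            if c₃ = c₂ then T c₁ c₂ c₃ c₁ else 0 := by
          intro c₃
          by_cases e : c₃ = c₂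
          · simp only [e, if_true]
            rw [Finset.sum_ite_eq]
            simp
          · simp [e]
        simp only [this]
        rw [Finset.sum_ite_eq']
        simp
      · simp [e]
  rw [Finset.sum_congr rfl fun v _ => h1 v]
  have h4 : ∀ v : O, ∑ w, (8 : ℂ) ^ (Fintype.card (C × O)) * ((∑ c, ∑ c', T c c c' c') +
        (if v = w then ∑ c, ∑ c', T c c' c' c else 0)) = (8 : ℂ) ^ (Fintype.card (C × O)) *
        ((Fintype.card O : ℂ) * (∑ c, ∑ c', T c c c' c') + ∑ c, ∑ c', T c c' c' c) := by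
    intro v
    rw [← Finset.mul_sum, Finset.sum_add_distrib, Finset.sum_const, Finset.sum_ite_eq]
    simp
  rw [Finset.sum_congr rfl fun v _ => h4 v, Finset.sum_const, Finset.card_univ, nsmul_eq_mul]
  ring

/-- expansion of `M * N` with `M`, `N` sums of two index families -/
theorem avg_expand2 {X Y : Type} [Fintype X] [DecidableEq X] [Fintype Y] [DecidableEq Y]
    (B : C → Matrix X Y ℂ) (z : C → ℂ) :
    mix B z * (mix B z).conjTranspose =
      ∑ c₁, ∑ c₂, (z c₁ * star (z c₂)) • (B c₁ * (B c₂).conjTranspose) := by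
  unfold mix
  rw [Matrix.conjTranspose_sum, Matrix.sum_mul]
  refine Finset.sum_congr rfl fun c₁ _ => ?_
  rw [Matrix.mul_sum]
  refine Finset.sum_congr rfl fun c₂ _ => ?_
  rw [Matrix.conjTranspose_smul, Matrix.smul_mul, Matrix.mul_smul, smul_smul]

theorem avg_expand2' (B : C → Matrix X Y ℂ) (z : C → ℂ) :
    (mix B z).conjTranspose * mix B z =
      ∑ c₁, ∑ c₂, (z c₁ * star (z c₂)) • ((B c₂).conjTranspose * B c₁) := by
  unfold mix
  rw [Matrix.conjTranspose_sum, Matrix.sum_mul, Finset.sum_comm (s := univ)]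
  refine Finset.sum_congr rfl fun c₂ _ => ?_
  rw [Matrix.mul_sum]
  refine Finset.sum_congr rfl fun c₁ _ => ?_
  rw [Matrix.conjTranspose_smul, Matrix.smul_mul, Matrix.mul_smul, smul_smul, mul_comm]

/-- the trace of a product of two sums -/
theorem avg_trace {Z : Type} [Fintype Z] [DecidableEq Z] (z : C → O → ℂ)
    (P : C → C → Matrix Z Z ℂ) :
    ((∑ v, ∑ c₁, ∑ c₂, (z c₁ v * star (z c₂ v)) • P c₁ c₂) *
      (∑ w, ∑ c₃, ∑ c₄, (z c₃ w * star (z c₄ w)) • P c₃ c₄)).trace =
    ∑ v, ∑ w, ∑ c₁, ∑ c₂, ∑ c₃, ∑ c₄,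
      (z c₁ v * star (z c₂ v) * z c₃ w * star (z c₄ w)) * (P c₁ c₂ * P c₃ c₄).trace := by
  rw [Finset.sum_mul_sum, Matrix.trace_sum]
  refine Finset.sum_congr rfl fun v _ => ?_
  rw [Matrix.trace_sum]
  refine Finset.sum_congr rfl fun w _ => ?_
  rw [Finset.sum_mul, Matrix.trace_sum]
  refine Finset.sum_congr rfl fun c₁ _ => ?_
  rw [Finset.sum_mul, Matrix.trace_sum]
  refine Finset.sum_congr rfl fun c₂ _ => ?_
  rw [Finset.mul_sum, Matrix.trace_sum]
  refine Finset.sum_congr rfl fun c₃ _ => ?_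
  rw [Finset.mul_sum, Matrix.trace_sum]
  refine Finset.sum_congr rfl fun c₄ _ => ?_
  rw [Matrix.smul_mul, Matrix.mul_smul, smul_smul, Matrix.trace_smul, smul_eq_mul]
  ring

theorem avg_re (N : ℕ) (x : ℂ) : ((8 : ℂ) ^ N * x).re = (8 : ℝ) ^ N * x.re := by
  have : (8 : ℂ) ^ N = (((8 : ℝ) ^ N : ℝ) : ℂ) := by push_cast; rfl
  rw [this, Complex.re_ofReal_mul]

end

theorem avg_thm (h : WCKStmt) : AVGStmt := by
  intro X Y C O _ _ _ _ _ _ _ _ B
  rw [avg_card]
  refine ⟨?_, ?_, ?_⟩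
  · have h1 : ∀ G : C → O → Fin 8, tr1 (KK (fun v => mix B (fun c => zz (G c v)))) =
        (∑ v, ∑ c₁, ∑ c₂, (zz (G c₁ v) * star (zz (G c₂ v))) *
          (B c₁ * (B c₂).conjTranspose).trace).re := by
      intro G
      unfold tr1 KK
      congr 1
      rw [Matrix.trace_sum]
      refine Finset.sum_congr rfl fun v _ => ?_
      rw [avg_expand2, Matrix.trace_sum]
      refine Finset.sum_congr rfl fun c₁ _ => ?_
      rw [Matrix.trace_sum]
      refine Finset.sum_congr rfl fun c₂ _ => ?_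
      rw [Matrix.trace_smul, smul_eq_mul]
    rw [Finset.sum_congr rfl fun G _ => h1 G, ← Complex.re_sum]
    have h2 : ∑ G : C → O → Fin 8, ∑ v, ∑ c₁, ∑ c₂, (zz (G c₁ v) * star (zz (G c₂ v))) *
          (B c₁ * (B c₂).conjTranspose).trace =
        (8 : ℂ) ^ (Fintype.card (C × O)) * ((Fintype.card O : ℂ) * (KK B).trace) := by
      rw [Finset.sum_comm]
      have h3 : ∀ v : O, ∑ G : C → O → Fin 8, ∑ c₁, ∑ c₂, (zz (G c₁ v) * star (zz (G c₂ v))) *
          (B c₁ * (B c₂).conjTranspose).trace =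
          (8 : ℂ) ^ (Fintype.card (C × O)) * (KK B).trace := by
        intro v
        rw [Finset.sum_comm]
        unfold KK
        rw [Matrix.trace_sum, Finset.mul_sum]
        refine Finset.sum_congr rfl fun c₁ _ => ?_
        rw [Finset.sum_comm]
        have h4 : ∀ c₂ : C, ∑ G : C → O → Fin 8, (zz (G c₁ v) * star (zz (G c₂ v))) *
            (B c₁ * (B c₂).conjTranspose).trace = if c₁ = c₂ then
              (8 : ℂ) ^ (Fintype.card (C × O)) * (B c₁ * (B c₂).conjTranspose).trace else 0 := by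
          intro c₂
          rw [← Finset.sum_mul, avg_two h (c₁, v) (c₂, v)]
          by_cases e : c₁ = c₂
          · simp [e]
          · simp [e]
        rw [Finset.sum_congr rfl fun c₂ _ => h4 c₂, Finset.sum_ite_eq]
        simp
      rw [Finset.sum_congr rfl fun v _ => h3 v, Finset.sum_const, Finset.card_univ, nsmul_eq_mul]
      ring
    rw [h2, avg_re]
    unfold tr1
    congr 1
    have : ((Fintype.card O : ℕ) : ℂ) = (((Fintype.card O : ℕ) : ℝ) : ℂ) := by push_cast; rfl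
    rw [this, Complex.re_ofReal_mul]
  · have h1 : ∀ G : C → O → Fin 8, tr2 (KK (fun v => mix B (fun c => zz (G c v)))) =
        (∑ v, ∑ w, ∑ c₁, ∑ c₂, ∑ c₃, ∑ c₄,
          (zz (G c₁ v) * star (zz (G c₂ v)) * zz (G c₃ w) * star (zz (G c₄ w))) *
          (B c₁ * (B c₂).conjTranspose * (B c₃ * (B c₄).conjTranspose)).trace).re := by
      intro G
      unfold tr2 KK
      congr 1
      simp only [avg_expand2]
      exact avg_trace (fun c v => zz (G c v)) (fun c₁ c₂ => B c₁ * (B c₂).conjTranspose)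
    rw [Finset.sum_congr rfl fun G _ => h1 G, ← Complex.re_sum,
      avg_T h (fun c₁ c₂ c₃ c₄ => (B c₁ * (B c₂).conjTranspose *
        (B c₃ * (B c₄).conjTranspose)).trace), avg_re]
    congr 1
    have e1 : ∑ c, ∑ c', (B c * (B c).conjTranspose * (B c' * (B c').conjTranspose)).trace =
        (KK B * KK B).trace := by
      unfold KK
      rw [Finset.sum_mul_sum, Matrix.trace_sum]
      refine Finset.sum_congr rfl fun c _ => ?_
      rw [Matrix.trace_sum]
    have e2 : ∑ c, ∑ c', (B c * (B c').conjTranspose * (B c' * (B c).conjTranspose)).trace =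
        (LL B * LL B).trace := by
      unfold LL
      rw [Finset.sum_mul_sum, Matrix.trace_sum]
      refine Finset.sum_congr rfl fun c _ => ?_
      rw [Matrix.trace_sum]
      refine Finset.sum_congr rfl fun c' _ => ?_
      rw [← Matrix.mul_assoc, Matrix.trace_mul_comm]
      simp only [Matrix.mul_assoc]
    rw [e1, e2]
    unfold tr2
    have : ((Fintype.card O : ℕ) : ℂ) = (((Fintype.card O : ℕ) : ℝ) : ℂ) := by push_cast; rfl
    rw [this, Complex.add_re, ← Complex.ofReal_pow, Complex.re_ofReal_mul, Complex.re_ofReal_mul]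
  · have h1 : ∀ G : C → O → Fin 8, tr2 (LL (fun v => mix B (fun c => zz (G c v)))) =
        (∑ v, ∑ w, ∑ c₁, ∑ c₂, ∑ c₃, ∑ c₄,
          (zz (G c₁ v) * star (zz (G c₂ v)) * zz (G c₃ w) * star (zz (G c₄ w))) *
          ((B c₂).conjTranspose * B c₁ * ((B c₄).conjTranspose * B c₃)).trace).re := by
      intro G
      unfold tr2 LL
      congr 1
      simp only [avg_expand2']
      exact avg_trace (fun c v => zz (G c v)) (fun c₁ c₂ => (B c₂).conjTranspose * B c₁)
    rw [Finset.sum_congr rfl fun G _ => h1 G, ← Complex.re_sum,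
      avg_T h (fun c₁ c₂ c₃ c₄ => ((B c₂).conjTranspose * B c₁ *
        ((B c₄).conjTranspose * B c₃)).trace), avg_re]
    congr 1
    have e1 : ∑ c, ∑ c', ((B c).conjTranspose * B c * ((B c').conjTranspose * B c')).trace =
        (LL B * LL B).trace := by
      unfold LL
      rw [Finset.sum_mul_sum, Matrix.trace_sum]
      refine Finset.sum_congr rfl fun c _ => ?_
      rw [Matrix.trace_sum]
    have e2 : ∑ c, ∑ c', ((B c').conjTranspose * B c * ((B c).conjTranspose * B c')).trace =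
        (KK B * KK B).trace := by
      unfold KK
      rw [Finset.sum_mul_sum, Matrix.trace_sum]
      refine Finset.sum_congr rfl fun c _ => ?_
      rw [Matrix.trace_sum]
      refine Finset.sum_congr rfl fun c' _ => ?_
      rw [Matrix.mul_assoc, Matrix.trace_mul_comm]
      simp only [Matrix.mul_assoc]
    rw [e1, e2]
    unfold tr2
    have : ((Fintype.card O : ℕ) : ℂ) = (((Fintype.card O : ℕ) : ℝ) : ℂ) := by push_cast; rfl
    rw [this, Complex.add_re, ← Complex.ofReal_pow, Complex.re_ofReal_mul, Complex.re_ofReal_mul]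

end Pool.Agent.H5.FR2
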