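import Pool.Agent.H5.FR2.Stmts

set_option autoImplicit false

namespace Pool.Agent.H5.FR2

open Finset Pool.Agent.H5.FR Pool.Agent.H80

theorem mlq_aux {d n W : ℕ} (a₀ : Fin d → Fin n) (F : Finset (Finset (Fin d)))
    (w : Finset (Fin d) → Fin d → Fin (W + 1) → Fin n → Fin (W + 1) → ℂ) :
    ∀ (j : ℕ) (X : Finset (Fin d)) (v : Fin (W + 1)) (m : (Fin d × Fin n) →₀ ℕ),
      m ∈ (QQ F w j X v).support → ∃ a : Fin d → Fin n, m = ∑ i ∈ X, Finsupp.single (i, a i) 1 := by
  classical
  intro j
  induction j with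
  | zero =>
    intro X v m hm
    unfold QQ at hm
    split_ifs at hm with h
    · have h0 : m = 0 := by
        rw [MvPolynomial.mem_support_iff, MvPolynomial.coeff_one] at hm
        by_contra hne
        exact hm (if_neg fun h1 => hne h1.symm)
      exact ⟨a₀, by rw [h.1, h0]; simp⟩
    · simp at hm
  | succ j ih =>
    intro X v m hm
    rw [MvPolynomial.mem_support_iff] at hm
    unfold QQ at hm
    rw [MvPolynomial.coeff_sum] at hm
    obtain ⟨i, hi, h1⟩ := Finset.exists_ne_zero_of_sum_ne_zero hm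
    rw [MvPolynomial.coeff_sum] at h1
    obtain ⟨u, -, h2⟩ := Finset.exists_ne_zero_of_sum_ne_zero h1
    rw [MvPolynomial.coeff_sum] at h2
    obtain ⟨a, -, h3⟩ := Finset.exists_ne_zero_of_sum_ne_zero h2
    rw [mul_assoc, MvPolynomial.coeff_C_mul, MvPolynomial.coeff_X_mul'] at h3
    have h4 := right_ne_zero_of_mul h3
    split_ifs at h4 with h5
    · have hiX : i ∈ X := (Finset.mem_filter.1 hi).1
      obtain ⟨a', ha'⟩ := ih (X.erase i) u _ (MvPolynomial.mem_support_iff.2 h4)
      refine ⟨Function.update a' i a, ?_⟩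
      have h6 : m = Finsupp.single (i, a) 1 + (m - Finsupp.single (i, a) 1) := by
        rw [add_tsub_cancel_of_le]
        rw [Finsupp.single_le_iff]
        exact Nat.one_le_iff_ne_zero.2 (Finsupp.mem_support_iff.1 h5)
      rw [h6, ha', ← Finset.add_sum_erase X _ hiX]
      congr 1
      · simp
      · refine Finset.sum_congr rfl fun i' hi' => ?_
        rw [Function.update_of_ne (Finset.ne_of_mem_erase hi')]
    · exact absurd rfl h4

theorem mlq_thm : MLQStmt := by
  intro d n W F w m hm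
  rcases Nat.eq_zero_or_pos d with hd | hd
  · subst hd
    obtain ⟨a, ha⟩ := mlq_aux (fun i => i.elim0) F w 0 univ 0 m hm
    exact ⟨a, ha⟩
  · rcases Nat.eq_zero_or_pos n with hn | hn
    · subst hn
      obtain ⟨d', rfl⟩ : ∃ d', d = d' + 1 := ⟨d - 1, by omega⟩
      exfalso
      have : QQ F w (d' + 1) univ 0 = 0 := by
        unfold QQ
        simp
      rw [this] at hm
      simp at hm
    · obtain ⟨a, ha⟩ := mlq_aux (fun _ => ⟨0, hn⟩) F w d univ 0 m hm
      exact ⟨a, ha⟩

end Pool.Agent.H5.FR2
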